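import Mathlib

/-!
Metric polytopes: coordinates indexed by the unordered pairs of distinct points, one point
extensions, relabellings.  All maps used are measure preserving.
-/

open MeasureTheory
open scoped ENNReal

namespace Pool.Agent.R249.MPoly

/-- Unordered pairs of distinct elements of `V`. -/
abbrev E (V : Type*) := {s : Sym2 V // ¬ s.IsDiag}

variable {V W B : Type*}

open Classical in
/-- The distance given by the coordinates `D` (zero on the diagonal). -/
noncomputable def dd (D : E V → ℝ) (a b : V) : ℝ :=
  if h : a = b then 0 else D ⟨s(a, b), by simpa using h⟩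

theorem dd_self (D : E V → ℝ) (a : V) : dd D a a = 0 := by simp [dd]

theorem dd_ne (D : E V → ℝ) {a b : V} (h : a ≠ b) (h' : ¬ (s(a, b) : Sym2 V).IsDiag) :
    dd D a b = D ⟨s(a, b), h'⟩ := by simp [dd, h]

theorem dd_comm (D : E V → ℝ) (a b : V) : dd D a b = dd D b a := by
  by_cases h : a = b
  · rw [h]
  · have h1 : ¬ (s(a, b) : Sym2 V).IsDiag := by simpa using h
    have h2 : ¬ (s(b, a) : Sym2 V).IsDiag := by simpa using (fun h' => h h'.symm)
    rw [dd_ne D h h1, dd_ne D (fun h' => h h'.symm) h2]
    congr 1
    exact Subtype.ext Sym2.eq_swap

theorem measurable_dd (a b : V) : Measurable (fun D : E V → ℝ => dd D a b) := by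
  by_cases h : a = b
  · simp only [dd, h, dite_true]
    exact measurable_const
  · simp only [dd, h, dite_false]
    exact measurable_pi_apply _

/-- The map on unordered pairs of distinct points given by an injective map. -/
def eMap (f : V → W) (hf : Function.Injective f) (s : E V) : E W :=
  ⟨s.1.map f, fun h => s.2 ((Sym2.isDiag_map hf).1 h)⟩

/-- Pull back along an injective map of the points. -/
def pull (f : V → W) (hf : Function.Injective f) (D : E W → ℝ) : E V → ℝ :=
  fun s => D (eMap f hf s)

theorem dd_pull (f : V → W) (hf : Function.Injective f) (D : E W → ℝ) (a b : V) :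
    dd (pull f hf D) a b = dd D (f a) (f b) := by
  by_cases h : a = b
  · rw [h, dd_self, dd_self]
  · have h1 : ¬ (s(a, b) : Sym2 V).IsDiag := by simpa using h
    have h2 : f a ≠ f b := fun h' => h (hf h')
    have h3 : ¬ (s(f a, f b) : Sym2 W).IsDiag := by simpa using h2
    rw [dd_ne _ h h1, dd_ne _ h2 h3]
    rfl

theorem eMap_bijective (σ : V ≃ W) : Function.Bijective (eMap σ σ.injective) := by
  constructor
  · intro s t h
    apply Subtype.ext
    have h1 : s.1.map σ = t.1.map σ := congrArg Subtype.val h
    exact Sym2.map.injective σ.injective h1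
  · intro s
    obtain ⟨s, hs⟩ := s
    induction s using Sym2.ind with
    | _ a b =>
      refine ⟨⟨s(σ.symm a, σ.symm b), ?_⟩, ?_⟩
      · intro h
        apply hs
        simpa using h
      · apply Subtype.ext
        simp [eMap]

/-- The closed metric polytope. -/
def Mb (V : Type*) : Set (E V → ℝ) :=
  {D | (∀ a b, 0 ≤ dd D a b ∧ dd D a b ≤ 2) ∧ ∀ a b c, dd D a b ≤ dd D a c + dd D c b}

theorem mem_Mb_pull (σ : V ≃ W) (D : E W → ℝ) :
    pull σ σ.injective D ∈ Mb V ↔ D ∈ Mb W := by
  constructor
  · rintro ⟨h1, h2⟩
    refine ⟨fun a b => ?_, fun a b c => ?_⟩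
    · have := h1 (σ.symm a) (σ.symm b)
      rw [dd_pull] at this
      simpa using this
    · have := h2 (σ.symm a) (σ.symm b) (σ.symm c)
      rw [dd_pull, dd_pull, dd_pull] at this
      simpa using this
  · rintro ⟨h1, h2⟩
    refine ⟨fun a b => ?_, fun a b c => ?_⟩
    · rw [dd_pull]
      exact h1 _ _
    · rw [dd_pull, dd_pull, dd_pull]
      exact h2 _ _ _

theorem mp_reindex {ι κ : Type*} [Fintype ι] [Fintype κ] (e : ι ≃ κ) :
    MeasurePreserving (fun (f : κ → ℝ) (i : ι) => f (e i)) volume volume :=
  (volume_measurePreserving_piCongrLeft (fun _ : κ => ℝ) e).symm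

section
variable [Fintype V] [DecidableEq V] [Fintype W] [DecidableEq W]

theorem mp_pull (σ : V ≃ W) :
    MeasurePreserving (pull (V := V) (W := W) σ σ.injective) volume volume :=
  mp_reindex (Equiv.ofBijective _ (eMap_bijective σ))

end

/-- Splitting of the pairs of `Option B`. -/
def eOptFun (B : Type*) : E B ⊕ B → E (Option B) :=
  Sum.elim (eMap some (Option.some_injective B)) (fun b => ⟨s(none, some b), by simp⟩)

theorem eOptFun_bijective (B : Type*) : Function.Bijective (eOptFun B) := by
  constructor
  · rintro (s | b) (t | c) h
    · have h1 : s.1.map some = t.1.map some := congrArg Subtype.val h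
      have h2 := Sym2.map.injective (Option.some_injective B) h1
      rw [Subtype.ext h2]
    · exfalso
      have h1 : s.1.map some = s(none, some c) := congrArg Subtype.val h
      have h2 : (none : Option B) ∈ s.1.map some := by rw [h1]; simp
      rw [Sym2.mem_map] at h2
      obtain ⟨a, _, ha⟩ := h2
      cases ha
    · exfalso
      have h1 : s(none, some b) = t.1.map some := congrArg Subtype.val h
      have h2 : (none : Option B) ∈ t.1.map some := by rw [← h1]; simp
      rw [Sym2.mem_map] at h2
      obtain ⟨a, _, ha⟩ := h2
      cases ha
    · have h1 : (s(none, some b) : Sym2 (Option B)) = s(none, some c) := congrArg Subtype.val h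
      simp at h1
      rw [h1]
  · rintro ⟨s, hs⟩
    induction s using Sym2.ind with
    | _ a b =>
      cases a with
      | none =>
        cases b with
        | none => exact absurd (by simp) hs
        | some b => exact ⟨Sum.inr b, rfl⟩
      | some a =>
        cases b with
        | none => exact ⟨Sum.inr a, Subtype.ext Sym2.eq_swap⟩
        | some b =>
          refine ⟨Sum.inl ⟨s(a, b), ?_⟩, rfl⟩
          intro h
          apply hs
          simpa using h

/-- Splitting of the pairs of `Option B`, as an equivalence. -/
noncomputable def eOpt (B : Type*) : E B ⊕ B ≃ E (Option B) :=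
  Equiv.ofBijective _ (eOptFun_bijective B)

/-- The coordinates of a metric on `Option B`: those of the restriction to `B` and the distances
to `none`. -/
noncomputable def Phi (B : Type*) : (E (Option B) → ℝ) ≃ᵐ (E B → ℝ) × (B → ℝ) :=
  (MeasurableEquiv.piCongrLeft (fun _ : E (Option B) => ℝ) (eOpt B)).symm.trans
    (MeasurableEquiv.sumPiEquivProdPi (fun _ : E B ⊕ B => ℝ))

theorem Phi_fst (D : E (Option B) → ℝ) : (Phi B D).1 = pull some (Option.some_injective B) D :=
  rfl

theorem Phi_snd (D : E (Option B) → ℝ) (b : B) : (Phi B D).2 b = dd D none (some b) := by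
  rw [dd_ne D (by simp) (by simp)]
  rfl

theorem mp_Phi (B : Type*) [Fintype B] [DecidableEq B] :
    MeasurePreserving (Phi B) volume volume :=
  (volume_measurePreserving_sumPiEquivProdPi (fun _ : E B ⊕ B => ℝ)).comp
    (volume_measurePreserving_piCongrLeft (fun _ : E (Option B) => ℝ) (eOpt B)).symm

theorem Phi_symm_some (p : (E B → ℝ) × (B → ℝ)) (a b : B) :
    dd ((Phi B).symm p) (some a) (some b) = dd p.1 a b := by
  have h := Phi_fst ((Phi B).symm p)
  rw [MeasurableEquiv.apply_symm_apply] at h
  rw [h, dd_pull]

theorem Phi_symm_none (p : (E B → ℝ) × (B → ℝ)) (b : B) :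
    dd ((Phi B).symm p) none (some b) = p.2 b := by
  have h := Phi_snd ((Phi B).symm p) b
  rw [MeasurableEquiv.apply_symm_apply] at h
  exact h.symm

theorem Phi_symm_none' (p : (E B → ℝ) × (B → ℝ)) (b : B) :
    dd ((Phi B).symm p) (some b) none = p.2 b := by
  rw [dd_comm, Phi_symm_none]

/-- One point extensions of a metric. -/
def FF (d : E B → ℝ) : Set (B → ℝ) :=
  {x | (∀ j, 0 ≤ x j ∧ x j ≤ 2) ∧ ∀ j k, x j ≤ dd d j k + x k ∧ dd d j k ≤ x j + x k}

/-- The metric polytope of `Option B`, in the coordinates given by `Phi`. -/
def M1 (B : Type*) : Set ((E B → ℝ) × (B → ℝ)) := {p | p.1 ∈ Mb B ∧ p.2 ∈ FF p.1}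

theorem mem_Mb_option (p : (E B → ℝ) × (B → ℝ)) :
    (Phi B).symm p ∈ Mb (Option B) ↔ p ∈ M1 B := by
  constructor
  · rintro ⟨h1, h2⟩
    refine ⟨⟨fun a b => ?_, fun a b c => ?_⟩, fun j => ?_, fun j k => ⟨?_, ?_⟩⟩
    · have := h1 (some a) (some b)
      rwa [Phi_symm_some] at this
    · have := h2 (some a) (some b) (some c)
      rwa [Phi_symm_some, Phi_symm_some, Phi_symm_some] at this
    · have := h1 none (some j)
      rwa [Phi_symm_none] at this
    · have := h2 none (some j) (some k)
      rw [Phi_symm_none, Phi_symm_none, Phi_symm_some, dd_comm] at this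
      linarith
    · have := h2 (some j) (some k) none
      rwa [Phi_symm_none, Phi_symm_none', Phi_symm_some] at this
  · rintro ⟨⟨h1, h2⟩, h3, h4⟩
    refine ⟨fun a b => ?_, fun a b c => ?_⟩
    · cases a with
      | none =>
        cases b with
        | none => rw [dd_self]; norm_num
        | some b => rw [Phi_symm_none]; exact h3 b
      | some a =>
        cases b with
        | none => rw [Phi_symm_none']; exact h3 a
        | some b => rw [Phi_symm_some]; exact h1 a b
    · cases a with
      | none =>
        cases b with
        | none =>
          cases c with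
          | none => rw [dd_self]; norm_num
          | some c =>
            rw [dd_self, Phi_symm_none, Phi_symm_none']
            have := h3 c
            linarith
        | some b =>
          cases c with
          | none => rw [dd_self, Phi_symm_none]; linarith
          | some c =>
            rw [Phi_symm_none, Phi_symm_none, Phi_symm_some, dd_comm]
            have := (h4 b c).1
            linarith
      | some a =>
        cases b with
        | none =>
          cases c with
          | none => rw [dd_self, Phi_symm_none']; linarith
          | some c =>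
            rw [Phi_symm_none', Phi_symm_none', Phi_symm_some]
            exact (h4 a c).1
        | some b =>
          cases c with
          | none =>
            rw [Phi_symm_none', Phi_symm_none, Phi_symm_some]
            exact (h4 a b).2
          | some c =>
            rw [Phi_symm_some, Phi_symm_some, Phi_symm_some]
            exact h2 a b c

theorem mle {α : Type*} [MeasurableSpace α] {f g : α → ℝ} (hf : Measurable f) (hg : Measurable g) :
    Measurable (fun q => f q ≤ g q) :=
  measurableSet_setOfPred.1 (measurableSet_le hf hg)

theorem measurableSet_Mb [Countable V] : MeasurableSet (Mb V) := by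
  unfold Mb
  apply measurableSet_setOfPred.2
  refine Measurable.and (Measurable.forall fun a => Measurable.forall fun b =>
    Measurable.and (mle measurable_const (measurable_dd a b))
      (mle (measurable_dd a b) measurable_const)) (Measurable.forall fun a =>
    Measurable.forall fun b => Measurable.forall fun c =>
      mle (measurable_dd a b) ((measurable_dd a c).add (measurable_dd c b)))

/-- Joint measurability of the set of one point extensions. -/
theorem measurable_FF [Countable B] {α : Type*} [MeasurableSpace α] {d : α → E B → ℝ}
    {x : α → B → ℝ} (hd : Measurable d) (hx : Measurable x) :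
    Measurable (fun q => x q ∈ FF (d q)) := by
  have h1 : ∀ j, Measurable (fun q => x q j) := fun j => (measurable_pi_apply j).comp hx
  have h2 : ∀ j k, Measurable (fun q => dd (d q) j k) := fun j k => (measurable_dd j k).comp hd
  refine Measurable.and (Measurable.forall fun j =>
    Measurable.and (mle measurable_const (h1 j)) (mle (h1 j) measurable_const))
      (Measurable.forall fun j => Measurable.forall fun k => Measurable.and
        (mle (h1 j) ((h2 j k).add (h1 k))) (mle (h2 j k) ((h1 j).add (h1 k))))

theorem measurableSet_M1 [Countable B] : MeasurableSet (M1 B) := by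
  unfold M1
  apply measurableSet_setOfPred.2
  refine Measurable.and ?_ (measurable_FF measurable_fst measurable_snd)
  exact (measurableSet_setOfPred.1 (measurableSet_Mb (V := B))).comp measurable_fst

section
variable [Fintype V] [DecidableEq V] [Fintype W] [DecidableEq W] [Fintype B] [DecidableEq B]

/-- The volume of the metric polytope depends on the number of points only. -/
theorem volume_Mb_congr (σ : V ≃ W) : volume (Mb V) = volume (Mb W) := by
  rw [← (mp_pull σ).measure_preimage (measurableSet_Mb (V := V)).nullMeasurableSet]
  congr 1
  ext D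
  exact mem_Mb_pull σ D

theorem volume_Mb_option : volume (Mb (Option B)) = volume (M1 B) := by
  rw [← (mp_Phi B).measure_preimage (measurableSet_M1 (B := B)).nullMeasurableSet]
  congr 1
  ext D
  rw [Set.mem_preimage, ← mem_Mb_option, MeasurableEquiv.symm_apply_apply]

theorem volume_M1 : volume (M1 B) = ∫⁻ d in Mb B, volume (FF d) := by
  rw [Measure.volume_eq_prod, Measure.prod_apply measurableSet_M1,
    ← lintegral_indicator measurableSet_Mb]
  refine lintegral_congr fun d => ?_
  by_cases hd : d ∈ Mb B
  · rw [Set.indicator_of_mem hd]
    congr 1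
    ext x
    simp [M1, hd]
  · rw [Set.indicator_of_notMem hd]
    have : Prod.mk d ⁻¹' M1 B = ∅ := by
      ext x
      simp [M1, hd]
    rw [this, measure_empty]

end

end Pool.Agent.R249.MPoly
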