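import Pool.Agent.R249.MPoly.Main

/-!
The inequality `Vol(M_{m+2}) Vol(M_m) ≥ Vol(M_{m+1})^2`.
-/

open MeasureTheory
open scoped ENNReal

namespace Pool.Agent.R249.MPoly

set_option linter.unusedSectionVars false

variable {B : Type*} [Fintype B] [DecidableEq B]

/-- The smallest `x j + y j`. -/
noncomputable def sm (q : P B) : ℝ := ⨅ j, (q.2 j + q.1.2 j)

/-- The largest `|x j - y j|`. -/
noncomputable def tm (q : P B) : ℝ := ⨆ j, |q.2 j - q.1.2 j|

theorem measurable_sm : Measurable (sm (B := B)) :=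
  Measurable.iInf fun j => (measurable_x j).add (measurable_y j)

theorem measurable_tm : Measurable (tm (B := B)) :=
  Measurable.iSup fun j => ((measurable_x j).sub (measurable_y j)).abs

theorem le_sm_iff [Nonempty B] (q : P B) (z : ℝ) : z ≤ sm q ↔ ∀ j, z ≤ q.2 j + q.1.2 j :=
  le_ciInf_iff (Set.finite_range _).bddBelow

theorem tm_le_iff [Nonempty B] (q : P B) (z : ℝ) : tm q ≤ z ↔ ∀ j, |q.2 j - q.1.2 j| ≤ z :=
  ciSup_le_iff (Set.finite_range _).bddAbove

theorem mp_opt : MeasurePreserving (fun f : Option B → ℝ => ((fun b => f (some b)), f none))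
    volume volume := by
  have h1 := mp_reindex (Equiv.optionEquivSumPUnit.{0} B).symm
  have h2 := volume_measurePreserving_sumPiEquivProdPi (fun _ : B ⊕ PUnit.{1} => ℝ)
  have h3 := (MeasurePreserving.id (volume : Measure (B → ℝ))).prod
    (volume_preserving_funUnique PUnit.{1} ℝ)
  exact h3.comp (h2.comp h1)

/-- The coordinates on `Option (Option B)`. -/
noncomputable def Ps (p : (E (Option B) → ℝ) × (Option B → ℝ)) : P B × ℝ :=
  ((Phi B p.1, fun b => p.2 (some b)), p.2 none)

theorem mp_Ps : MeasurePreserving (Ps (B := B)) volume volume := by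
  have h1 := (mp_Phi B).prod (mp_opt (B := B))
  have h2 := MeasureTheory.measurePreserving_prodAssoc
    (volume : Measure ((E B → ℝ) × (B → ℝ))) (volume : Measure (B → ℝ)) (volume : Measure ℝ)
  exact h2.symm.comp h1

/-- The metric polytope of `Option (Option B)`. -/
def K (B : Type*) : Set (P B × ℝ) :=
  {r | r.1 ∈ Q B ∧ (∀ j, |r.1.2 j - r.1.1.2 j| ≤ r.2 ∧ r.2 ≤ r.1.2 j + r.1.1.2 j) ∧ r.2 ≤ 2}

theorem measurableSet_K : MeasurableSet (K B) := by
  unfold K
  apply measurableSet_setOfPred.2
  have hx : ∀ j : B, Measurable fun r : P B × ℝ => r.1.2 j :=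
    fun j => (measurable_x j).comp measurable_fst
  have hy : ∀ j : B, Measurable fun r : P B × ℝ => r.1.1.2 j :=
    fun j => (measurable_y j).comp measurable_fst
  refine Measurable.and ?_ (Measurable.and (Measurable.forall fun j => Measurable.and
    (mle ((hx j).sub (hy j)).abs measurable_snd) (mle measurable_snd ((hx j).add (hy j))))
      (mle measurable_snd measurable_const))
  exact (measurableSet_setOfPred.1 (measurableSet_Q (B := B))).comp measurable_fst

theorem mem_K_iff [Nonempty B] (p : (E (Option B) → ℝ) × (Option B → ℝ)) :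
    Ps p ∈ K B ↔ p ∈ M1 (Option B) := by
  obtain ⟨D, x⟩ := p
  obtain ⟨p, rfl⟩ : ∃ p, D = (Phi B).symm p := ⟨Phi B D, (MeasurableEquiv.symm_apply_apply _ _).symm⟩
  have e1 : Ps ((Phi B).symm p, x) = ((p, fun b => x (some b)), x none) := by
    unfold Ps
    rw [MeasurableEquiv.apply_symm_apply]
  rw [e1]
  constructor
  · rintro ⟨⟨hp, h1, h2⟩, h3, h4⟩
    simp only at h1 h2 h3 h4
    have h0 : 0 ≤ x none := (abs_nonneg _).trans (h3 (Classical.arbitrary B)).1
    refine ⟨(mem_Mb_option p).2 hp, fun j => ?_, fun j k => ?_⟩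
    · cases j with
      | none => exact ⟨h0, h4⟩
      | some j => exact h1 j
    · simp only
      cases j with
      | none =>
        cases k with
        | none =>
          rw [dd_self]
          constructor <;> linarith
        | some k =>
          rw [Phi_symm_none]
          have h5 := abs_le.1 (h3 k).1
          have h6 := (h3 k).2
          constructor <;> linarith
      | some j =>
        cases k with
        | none =>
          rw [Phi_symm_none']
          have h5 := abs_le.1 (h3 j).1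
          have h6 := (h3 j).2
          constructor <;> linarith
        | some k =>
          rw [Phi_symm_some]
          exact h2 j k
  · rintro ⟨hp, h1, h2⟩
    simp only at h1 h2
    refine ⟨⟨(mem_Mb_option p).1 hp, fun j => h1 (some j), fun j k => ?_⟩, fun j => ?_, (h1 none).2⟩
    · have := h2 (some j) (some k)
      rwa [Phi_symm_some] at this
    · have h3 := h2 none (some j)
      have h4 := h2 (some j) none
      rw [Phi_symm_none] at h3
      rw [Phi_symm_none'] at h4
      simp only
      rw [abs_le]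
      refine ⟨⟨?_, ?_⟩, ?_⟩ <;> linarith [h3.1, h3.2, h4.1, h4.2]

theorem volume_top [Nonempty B] : volume (Mb (Option (Option B))) =
    ∫⁻ q in Q B, ENNReal.ofReal (min 2 (sm q) - tm q) := by
  rw [volume_Mb_option]
  have h1 : M1 (Option B) = Ps ⁻¹' (K B) := by
    ext p
    exact (mem_K_iff p).symm
  rw [h1, (mp_Ps (B := B)).measure_preimage measurableSet_K.nullMeasurableSet,
    Measure.volume_eq_prod, Measure.prod_apply measurableSet_K,
    ← lintegral_indicator measurableSet_Q]
  refine lintegral_congr fun q => ?_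
  by_cases hq : q ∈ Q B
  · rw [Set.indicator_of_mem hq, ← Real.volume_Icc]
    congr 1
    ext z
    rw [Set.mem_preimage, Set.mem_Icc, le_min_iff, le_sm_iff, tm_le_iff]
    constructor
    · rintro ⟨-, h2, h3⟩
      exact ⟨fun j => (h2 j).1, h3, fun j => (h2 j).2⟩
    · rintro ⟨h2, h3, h4⟩
      exact ⟨hq, fun j => ⟨h2 j, h4 j⟩, h3⟩
  · rw [Set.indicator_of_notMem hq]
    have : Prod.mk q ⁻¹' K B = ∅ := by
      ext z
      simp [K, hq]
    rw [this, measure_empty]

theorem bound_Mb {V : Type*} {D : E V → ℝ} (h : D ∈ Mb V) (s : E V) : 0 ≤ D s ∧ D s ≤ 2 := by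
  obtain ⟨s, hs⟩ := s
  induction s using Sym2.ind with
  | _ a b =>
    have hab : a ≠ b := by simpa using hs
    have := h.1 a b
    rwa [dd_ne D hab hs] at this

theorem finite_Q : volume (Q B) ≠ ∞ := by
  have h1 : Q B ⊆ Metric.closedBall 0 2 := by
    rintro q ⟨⟨h1, h2, -⟩, h3, -⟩
    rw [mem_closedBall_zero_iff, norm_prod_le_iff, norm_prod_le_iff,
      pi_norm_le_iff_of_nonneg (by norm_num), pi_norm_le_iff_of_nonneg (by norm_num),
      pi_norm_le_iff_of_nonneg (by norm_num)]
    refine ⟨⟨fun s => ?_, fun s => ?_⟩, fun s => ?_⟩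
    · rw [Real.norm_eq_abs, abs_of_nonneg (bound_Mb h1 s).1]
      exact (bound_Mb h1 s).2
    · rw [Real.norm_eq_abs, abs_of_nonneg (h2 s).1]
      exact (h2 s).2
    · rw [Real.norm_eq_abs, abs_of_nonneg (h3 s).1]
      exact (h3 s).2
  exact ((measure_mono h1).trans_lt measure_closedBall_lt_top).ne

/-- The union of the regions `U i`. -/
def UU (B : Type*) : Set (P B) := ⋃ i, U i

theorem measurableSet_UU : MeasurableSet (UU B) := MeasurableSet.iUnion measurableSet_U

theorem UU_subset : UU B ⊆ Q B := Set.iUnion_subset fun _ _ hq => hq.1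

theorem sm_of_U {i : B} {q : P B} (h : q ∈ U i) : sm q = q.2 i + q.1.2 i := by
  have : Nonempty B := ⟨i⟩
  apply le_antisymm
  · exact ciInf_le (Set.finite_range _).bddBelow i
  · exact le_ciInf h.2.1

theorem of_not_UU [Nonempty B] {q : P B} (h : q ∈ Q B) (h' : q ∉ UU B) : 2 ≤ sm q := by
  by_contra hlt
  push Not at hlt
  apply h'
  obtain ⟨i, hi'⟩ := exists_eq_ciInf_of_finite (f := fun j => q.2 j + q.1.2 j)
  have hi : q.2 i + q.1.2 i = ⨅ j, (q.2 j + q.1.2 j) := hi'
  refine Set.mem_iUnion.2 ⟨i, h, fun j => ?_, ?_⟩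
  · rw [hi]
    exact ciInf_le (Set.finite_range _).bddBelow j
  · rw [hi]
    exact hlt.le

theorem Q_subset_L [Nonempty B] : Q B ⊆ ⋃ i, (L 1 i ∪ L (-1) i) := by
  intro q hq
  obtain ⟨i, hi'⟩ := exists_eq_ciSup_of_finite (f := fun j => |q.2 j - q.1.2 j|)
  have hi : |q.2 i - q.1.2 i| = ⨆ j, |q.2 j - q.1.2 j| := hi'
  have h1 : ∀ j, |q.2 j - q.1.2 j| ≤ |q.2 i - q.1.2 i| := by
    intro j
    rw [hi]
    exact le_ciSup (f := fun j => |q.2 j - q.1.2 j|) (Set.finite_range _).bddAbove j
  refine Set.mem_iUnion.2 ⟨i, ?_⟩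
  rcases le_total (q.1.2 i) (q.2 i) with h | h
  · left
    refine ⟨hq, fun j => ?_⟩
    rw [one_mul, ← abs_of_nonneg (sub_nonneg.2 h)]
    exact h1 j
  · right
    refine ⟨hq, fun j => ?_⟩
    have h2 : -1 * (q.2 i - q.1.2 i) = |q.2 i - q.1.2 i| := by
      rw [abs_of_nonpos (sub_nonpos.2 h)]
      ring
    rw [h2]
    exact h1 j

theorem int_tm [Nonempty B] : ∫⁻ q in Q B, ENNReal.ofReal (tm q) ≤
    ∫⁻ q in UU B, ENNReal.ofReal (min 2 (sm q)) := by
  have h1 : ∀ i : B, ∫⁻ q in L 1 i, ENNReal.ofReal (tm q) ≤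
      ∫⁻ q in L 1 i, ENNReal.ofReal (q.2 i - q.1.2 i) := by
    intro i
    refine setLIntegral_mono' (measurableSet_L 1 i) fun q hq => ?_
    refine ENNReal.ofReal_le_ofReal ?_
    rw [tm_le_iff]
    intro j
    have := hq.2 j
    rwa [one_mul] at this
  have h2 : ∀ i : B, ∫⁻ q in L (-1) i, ENNReal.ofReal (tm q) ≤
      ∫⁻ q in L (-1) i, ENNReal.ofReal (q.1.2 i - q.2 i) := by
    intro i
    refine setLIntegral_mono' (measurableSet_L (-1) i) fun q hq => ?_
    refine ENNReal.ofReal_le_ofReal ?_
    rw [tm_le_iff]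
    intro j
    have := hq.2 j
    linarith
  have h3 : ∀ i : B,
      (∫⁻ q in U i, ENNReal.ofReal (q.2 i)) + ∫⁻ q in U i, ENNReal.ofReal (q.1.2 i) =
      ∫⁻ q in U i, ENNReal.ofReal (min 2 (sm q)) := by
    intro i
    rw [← lintegral_add_left (measurable_x i).ennreal_ofReal]
    refine setLIntegral_congr_fun (measurableSet_U i) fun q hq => ?_
    have h4 := (hq.1.2.1 i).1
    have h5 := (hq.1.1.2.1 i).1
    show ENNReal.ofReal (q.2 i) + ENNReal.ofReal (q.1.2 i) = ENNReal.ofReal (min 2 (sm q))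
    rw [sm_of_U hq, min_eq_right hq.2.2, ENNReal.ofReal_add h4 h5]
  calc ∫⁻ q in Q B, ENNReal.ofReal (tm q)
      ≤ ∫⁻ q in ⋃ i, (L 1 i ∪ L (-1) i), ENNReal.ofReal (tm q) := lintegral_mono_set Q_subset_L
    _ ≤ ∑' i : B, ∫⁻ q in L 1 i ∪ L (-1) i, ENNReal.ofReal (tm q) := lintegral_iUnion_le _ _
    _ = ∑ i : B, ∫⁻ q in L 1 i ∪ L (-1) i, ENNReal.ofReal (tm q) := tsum_fintype _
    _ ≤ ∑ i : B, ((∫⁻ q in L 1 i, ENNReal.ofReal (tm q)) +
          ∫⁻ q in L (-1) i, ENNReal.ofReal (tm q)) :=
        Finset.sum_le_sum fun i _ => lintegral_union_le _ _ _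
    _ ≤ ∑ i : B, ((∫⁻ q in U i, ENNReal.ofReal (q.2 i)) +
          ∫⁻ q in U i, ENNReal.ofReal (q.1.2 i)) := by
        refine Finset.sum_le_sum fun i _ => ?_
        rw [← int_L, ← int_L']
        exact add_le_add (h1 i) (h2 i)
    _ = ∑ i : B, ∫⁻ q in U i, ENNReal.ofReal (min 2 (sm q)) :=
        Finset.sum_congr rfl fun i _ => h3 i
    _ = ∑' i : B, ∫⁻ q in U i, ENNReal.ofReal (min 2 (sm q)) := (tsum_fintype _).symm
    _ = ∫⁻ q in UU B, ENNReal.ofReal (min 2 (sm q)) :=
        (lintegral_iUnion₀ (fun i => (measurableSet_U i).nullMeasurableSet) aedisj_U _).symm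

theorem two_UU : 2 * volume (UU B) ≤ volume (Q B) := by
  have h1 : volume (⋃ p : B × Bool, L (if p.2 then (1 : ℝ) else -1) p.1) ≤ volume (Q B) :=
    measure_mono (Set.iUnion_subset fun _ _ hq => hq.1)
  rw [measure_iUnion₀ aedisj_L (fun p => (measurableSet_L _ _).nullMeasurableSet),
    tsum_fintype, Fintype.sum_prod_type] at h1
  refine le_trans ?_ h1
  calc 2 * volume (UU B) ≤ 2 * ∑ i : B, volume (U i) := by
        gcongr
        exact measure_iUnion_fintype_le _ _
    _ = ∑ i : B, 2 * volume (U i) := by rw [Finset.mul_sum]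
    _ ≤ _ := by
        refine Finset.sum_le_sum fun i _ => ?_
        rw [Fintype.sum_bool]
        simp only [if_true, Bool.false_eq_true, if_false]
        rw [vol_L, vol_U, two_mul]

theorem main_ineq [Nonempty B] : volume (Q B) ≤ volume (Mb (Option (Option B))) := by
  have hU2 : volume (UU B) ≠ ∞ := ne_top_of_le_ne_top finite_Q (measure_mono UU_subset)
  have hfin : ∫⁻ q in UU B, ENNReal.ofReal (min 2 (sm q)) ≠ ∞ := by
    have h1 : ∫⁻ q in UU B, ENNReal.ofReal (min 2 (sm q)) ≤ ∫⁻ _ in UU B, ENNReal.ofReal 2 :=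
      lintegral_mono fun q => ENNReal.ofReal_le_ofReal (min_le_left _ _)
    rw [setLIntegral_const] at h1
    exact ne_top_of_le_ne_top (ENNReal.mul_ne_top ENNReal.ofReal_ne_top hU2) h1
  have hA : ∫⁻ q in Q B, ENNReal.ofReal (min 2 (sm q)) ≤
      volume (Mb (Option (Option B))) + ∫⁻ q in Q B, ENNReal.ofReal (tm q) := by
    rw [volume_top, ← lintegral_add_right _ measurable_tm.ennreal_ofReal]
    refine lintegral_mono fun q => ?_
    refine le_trans (le_of_eq ?_) ENNReal.ofReal_add_le
    congr 1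
    ring
  have hG : ∫⁻ q in Q B, ENNReal.ofReal (min 2 (sm q)) =
      (∫⁻ q in UU B, ENNReal.ofReal (min 2 (sm q))) + 2 * volume (Q B \ UU B) := by
    rw [← lintegral_inter_add_sdiff _ (Q B) (measurableSet_UU (B := B)),
      Set.inter_eq_right.2 UU_subset]
    congr 1
    rw [setLIntegral_congr_fun (g := fun _ => (2 : ℝ≥0∞))
      (measurableSet_Q.diff measurableSet_UU), setLIntegral_const]
    intro q hq
    simp only
    rw [min_eq_left (of_not_UU hq.1 hq.2)]
    norm_num
  have h1 : 2 * volume (Q B \ UU B) ≤ volume (Mb (Option (Option B))) := by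
    have h2 := hA.trans (add_le_add le_rfl int_tm)
    rw [hG, add_comm] at h2
    exact (ENNReal.add_le_add_iff_right hfin).1 h2
  have h3 : volume (Q B) = volume (UU B) + volume (Q B \ UU B) := by
    have := measure_inter_add_sdiff (μ := volume) (Q B) (measurableSet_UU (B := B))
    rw [Set.inter_eq_right.2 UU_subset] at this
    exact this.symm
  have h4 : volume (Q B) + volume (Q B) ≤ volume (Q B) + volume (Mb (Option (Option B))) := by
    calc volume (Q B) + volume (Q B) = 2 * volume (UU B) + 2 * volume (Q B \ UU B) := by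
          rw [← mul_add, ← h3, two_mul]
      _ ≤ _ := add_le_add two_UU h1
  exact (ENNReal.add_le_add_iff_left finite_Q).1 h4

theorem volume_Q : volume (Q B) = ∫⁻ d in Mb B, volume (FF d) * volume (FF d) := by
  have hmf : Measurable fun d : E B → ℝ => volume (FF d) := by
    have : MeasurableSet {p : (E B → ℝ) × (B → ℝ) | p.2 ∈ FF p.1} :=
      measurableSet_setOfPred.2 (measurable_FF measurable_fst measurable_snd)
    exact measurable_measure_prodMk_left this
  have h1 : volume (Q B) = ∫⁻ p in M1 B, volume (FF p.1) := by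
    rw [Measure.volume_eq_prod, Measure.prod_apply measurableSet_Q,
      ← lintegral_indicator measurableSet_M1]
    refine lintegral_congr fun p => ?_
    by_cases hd : p ∈ M1 B
    · rw [Set.indicator_of_mem hd]
      congr 1
      ext x
      simp [Q, hd]
    · rw [Set.indicator_of_notMem hd]
      have : Prod.mk p ⁻¹' Q B = ∅ := by
        ext x
        simp [Q, hd]
      rw [this, measure_empty]
  have hm : Measurable ((M1 B).indicator fun p => volume (FF p.1)) :=
    (hmf.comp measurable_fst).indicator measurableSet_M1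
  rw [h1, ← lintegral_indicator measurableSet_M1, Measure.volume_eq_prod,
    lintegral_prod _ hm.aemeasurable,
    ← lintegral_indicator measurableSet_Mb]
  refine lintegral_congr fun d => ?_
  by_cases hd : d ∈ Mb B
  · rw [Set.indicator_of_mem hd]
    have h2 : ∀ y : B → ℝ, (M1 B).indicator (fun p => volume (FF p.1)) (d, y) =
        (FF d).indicator (fun _ => volume (FF d)) y := by
      intro y
      by_cases hy : y ∈ FF d
      · have hm1 : (d, y) ∈ M1 B := ⟨hd, hy⟩
        rw [Set.indicator_of_mem hy, Set.indicator_of_mem hm1]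
      · rw [Set.indicator_of_notMem hy, Set.indicator_of_notMem]
        exact fun h => hy h.2
    simp only [h2]
    have h3 : MeasurableSet (FF d) :=
      measurableSet_setOfPred.2 (measurable_FF measurable_const measurable_id)
    rw [lintegral_indicator h3, setLIntegral_const]
  · rw [Set.indicator_of_notMem hd]
    have h2 : ∀ y : B → ℝ, (M1 B).indicator (fun p => volume (FF p.1)) (d, y) = 0 :=
      fun y => Set.indicator_of_notMem (fun h => hd h.1) _
    simp only [h2, lintegral_zero]

theorem log_convex [Nonempty B] : volume (Mb (Option B)) ^ 2 ≤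
    volume (Mb (Option (Option B))) * volume (Mb B) := by
  have hmf : Measurable fun d : E B → ℝ => volume (FF d) := by
    have : MeasurableSet {p : (E B → ℝ) × (B → ℝ) | p.2 ∈ FF p.1} :=
      measurableSet_setOfPred.2 (measurable_FF measurable_fst measurable_snd)
    exact measurable_measure_prodMk_left this
  refine le_trans ?_ (mul_le_mul_left main_ineq _)
  have h := ENNReal.lintegral_mul_le_Lp_mul_Lq (volume.restrict (Mb B))
    Real.HolderConjugate.two_two (f := fun d => volume (FF d)) (g := fun _ => 1)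
    hmf.aemeasurable measurable_const.aemeasurable
  have e1 : ∫⁻ d in Mb B, ((fun d : E B → ℝ => volume (FF d)) *
      fun _ : E B → ℝ => (1 : ℝ≥0∞)) d = volume (Mb (Option B)) := by
    rw [volume_Mb_option, volume_M1]
    simp
  have e2 : ∫⁻ d in Mb B, volume (FF d) ^ (2 : ℝ) = volume (Q B) := by
    rw [volume_Q]
    refine lintegral_congr fun d => ?_
    rw [ENNReal.rpow_two, sq]
  have e3 : ∫⁻ _ in Mb B, (1 : ℝ≥0∞) ^ (2 : ℝ) = volume (Mb B) := by
    simp
  rw [e1, e2, e3] at h
  have h2 : volume (Mb (Option B)) ^ (2 : ℝ) ≤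
      (volume (Q B) ^ (1 / (2 : ℝ)) * volume (Mb B) ^ (1 / (2 : ℝ))) ^ (2 : ℝ) :=
    ENNReal.rpow_le_rpow h (by norm_num)
  rw [ENNReal.mul_rpow_of_nonneg _ _ (by norm_num), ← ENNReal.rpow_mul, ← ENNReal.rpow_mul,
    ENNReal.rpow_two] at h2
  norm_num at h2
  exact h2

end Pool.Agent.R249.MPoly
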