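import Pool.Agent.R249.MPoly.Basic

/-!
The inequality `Vol(M_{m+2}) ≥ ∫ |F|^2`.
-/

open MeasureTheory
open scoped ENNReal

namespace Pool.Agent.R249.MPoly

set_option linter.unusedSectionVars false

variable {B : Type*} [Fintype B] [DecidableEq B]

/-- The coordinates of the metrics on `B ∪ {Y, X}` without the distance of `X` and `Y`:
`((d, y), x)`. -/
abbrev P (B : Type*) := ((E B → ℝ) × (B → ℝ)) × (B → ℝ)

/-- `Q`: metrics on `B` with two one point extensions. -/
def Q (B : Type*) : Set (P B) := {q | q.1 ∈ M1 B ∧ q.2 ∈ FF q.1.1}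

/-- The region where `x i + y i` is minimal and at most `2`. -/
def U (i : B) : Set (P B) :=
  {q | q ∈ Q B ∧ (∀ j, q.2 i + q.1.2 i ≤ q.2 j + q.1.2 j) ∧ q.2 i + q.1.2 i ≤ 2}

/-- The region where `ε (x i - y i)` is the largest of the `|x j - y j|`. -/
def L (ε : ℝ) (i : B) : Set (P B) :=
  {q | q ∈ Q B ∧ ∀ j, |q.2 j - q.1.2 j| ≤ ε * (q.2 i - q.1.2 i)}

/-- The relabelling exchanging `i` and `Y`. -/
noncomputable def R (i : B) (p : (E B → ℝ) × (B → ℝ)) : (E B → ℝ) × (B → ℝ) :=
  Phi B (pull (Equiv.swap none (some i)) (Equiv.swap none (some i)).injective ((Phi B).symm p))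

theorem mp_R (i : B) : MeasurePreserving (R i) volume volume :=
  (mp_Phi B).comp ((mp_pull (Equiv.swap none (some i))).comp (mp_Phi B).symm)

theorem mem_M1_R (i : B) (p : (E B → ℝ) × (B → ℝ)) : R i p ∈ M1 B ↔ p ∈ M1 B := by
  rw [← mem_Mb_option, ← mem_Mb_option, R, MeasurableEquiv.symm_apply_apply, mem_Mb_pull]

theorem R_snd_self (i : B) (p : (E B → ℝ) × (B → ℝ)) : (R i p).2 i = p.2 i := by
  rw [R, Phi_snd, dd_pull, Equiv.swap_apply_left, Equiv.swap_apply_right, Phi_symm_none']

theorem R_snd (i : B) (p : (E B → ℝ) × (B → ℝ)) {j : B} (h : j ≠ i) :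
    (R i p).2 j = dd p.1 i j := by
  rw [R, Phi_snd, dd_pull, Equiv.swap_apply_left,
    Equiv.swap_apply_of_ne_of_ne (by simp) (by simpa using h), Phi_symm_some]

theorem R_fst (i : B) (p : (E B → ℝ) × (B → ℝ)) {j k : B} (h : j ≠ i) (h' : k ≠ i) :
    dd (R i p).1 j k = dd p.1 j k := by
  rw [R, Phi_fst, dd_pull, dd_pull,
    Equiv.swap_apply_of_ne_of_ne (by simp) (by simpa using h),
    Equiv.swap_apply_of_ne_of_ne (by simp) (by simpa using h'), Phi_symm_some]

theorem R_fst' (i : B) (p : (E B → ℝ) × (B → ℝ)) {k : B} (h' : k ≠ i) :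
    dd (R i p).1 i k = p.2 k := by
  rw [R, Phi_fst, dd_pull, dd_pull, Equiv.swap_apply_right,
    Equiv.swap_apply_of_ne_of_ne (by simp) (by simpa using h'), Phi_symm_none]

/-- The measure preserving map taking `U i` to `L 1 i`. -/
noncomputable def G (i : B) (q : P B) : P B := (R i q.1, q.2 + Pi.single i (q.1.2 i))

theorem mp_G (i : B) : MeasurePreserving (G i) volume volume := by
  have h := MeasurePreserving.skew_product (μa := (volume : Measure ((E B → ℝ) × (B → ℝ))))
    (μc := (volume : Measure (B → ℝ))) (μd := (volume : Measure (B → ℝ))) (mp_R i)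
    (g := fun p x => x + Pi.single i (p.2 i)) ?_ ?_
  · exact h
  · show Measurable fun q : P B => q.2 + Pi.single i (q.1.2 i)
    refine measurable_snd.add ?_
    refine measurable_pi_lambda _ fun j => ?_
    by_cases hj : j = i
    · subst hj
      simp only [Pi.single_eq_same]
      exact (measurable_pi_apply j).comp (measurable_snd.comp measurable_fst)
    · simp only [Pi.single_eq_of_ne hj]
      exact measurable_const
  · exact Filter.Eventually.of_forall fun p => map_add_right_eq_self _ _

theorem G_snd_self (i : B) (q : P B) : (G i q).2 i = q.2 i + q.1.2 i := by simp [G]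

theorem G_snd (i : B) (q : P B) {j : B} (h : j ≠ i) : (G i q).2 j = q.2 j := by
  simp [G, Pi.single_eq_of_ne h]

theorem mem_U_iff (i : B) (q : P B) : G i q ∈ L 1 i ↔ q ∈ U i := by
  have hR := mem_M1_R i q.1
  have e1 : (G i q).1.2 i = q.1.2 i := R_snd_self i q.1
  have e2 : ∀ {j : B}, j ≠ i → (G i q).1.2 j = dd q.1.1 i j := fun h => R_snd i q.1 h
  have e3 : ∀ {j k : B}, j ≠ i → k ≠ i → dd (G i q).1.1 j k = dd q.1.1 j k :=
    fun h h' => R_fst i q.1 h h'
  have e4 : ∀ {k : B}, k ≠ i → dd (G i q).1.1 i k = q.1.2 k := fun h => R_fst' i q.1 h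
  have e4' : ∀ {k : B}, k ≠ i → dd (G i q).1.1 k i = q.1.2 k := fun h => by
    rw [dd_comm, e4 h]
  have e5 := G_snd_self i q
  have e6 : ∀ {j : B}, j ≠ i → (G i q).2 j = q.2 j := fun h => G_snd i q h
  constructor
  · rintro ⟨⟨hm', hf1, hf2⟩, hl⟩
    have hm : q.1 ∈ M1 B := hR.1 hm'
    obtain ⟨-, hg1, hg2⟩ := hm'
    obtain ⟨⟨hd0, hd⟩, hy1, hy2⟩ := hm
    have hi := hl i
    rw [one_mul, e1, e5] at hi
    have hx0 : 0 ≤ q.2 i := by
      have := (abs_nonneg _).trans hi
      linarith
    have hi2 := (hf1 i).2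
    rw [e5] at hi2
    have hyi := (hy1 i).1
    have hk1 : ∀ k, k ≠ i → q.2 i + q.1.2 i ≤ q.1.2 k + q.2 k := by
      intro k hk
      have := (hf2 i k).1
      rwa [e5, e4 hk, e6 hk] at this
    have hk2 : ∀ k, k ≠ i → |q.2 k - dd q.1.1 i k| ≤ q.2 i := by
      intro k hk
      have := hl k
      rw [one_mul, e1, e5, e6 hk, e2 hk] at this
      linarith
    refine ⟨⟨⟨⟨hd0, hd⟩, hy1, hy2⟩, ?_, ?_⟩, ?_, hi2⟩
    · intro j
      by_cases hj : j = i
      · subst hj
        exact ⟨hx0, by linarith⟩
      · have := hf1 j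
        rwa [e6 hj] at this
    · intro j k
      by_cases hj : j = i
      · subst hj
        by_cases hk : k = j
        · subst hk
          rw [dd_self]
          constructor <;> linarith
        · have h1 := hk1 k hk
          have h2 := abs_le.1 (hk2 k hk)
          have h3 := (hy2 j k)
          have h4 := (hy2 k j)
          rw [dd_comm] at h4
          constructor <;> linarith
      · by_cases hk : k = i
        · subst hk
          have h2 := abs_le.1 (hk2 j hj)
          have h1 := hk1 j hj
          have h3 := (hy2 j k)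
          rw [dd_comm] at h3
          rw [dd_comm]
          have h4 := (hy2 k j)
          constructor <;> linarith
        · have := hf2 j k
          rwa [e3 hj hk, e6 hj, e6 hk] at this
    · intro j
      by_cases hj : j = i
      · rw [hj]
      · have := hk1 j hj
        linarith
  · rintro ⟨⟨hm, hf1, hf2⟩, hu, hu2⟩
    have hm' : (G i q).1 ∈ M1 B := hR.2 hm
    obtain ⟨⟨hd0, hd⟩, hy1, hy2⟩ := hm
    refine ⟨⟨hm', ?_, ?_⟩, ?_⟩
    · intro j
      by_cases hj : j = i
      · subst hj
        rw [e5]
        have h1 := (hf1 j).1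
        have h2 := (hy1 j).1
        exact ⟨by linarith, hu2⟩
      · rw [e6 hj]
        exact hf1 j
    · intro j k
      by_cases hj : j = i
      · subst hj
        have h1 := (hf1 j).1
        have h2 := (hy1 j).1
        by_cases hk : k = j
        · subst hk
          rw [dd_self]
          constructor
          · linarith
          · rw [e5]
            linarith
        · rw [e5, e4 hk, e6 hk]
          have h3 := hf2 j k
          have h4 := hy2 k j
          rw [dd_comm] at h4
          have h5 := hu k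
          constructor <;> linarith
      · by_cases hk : k = i
        · subst hk
          rw [e4' hj, e5, e6 hj]
          have h3 := hf2 j k
          have h4 := hy2 k j
          have h6 := hy2 j k
          rw [dd_comm] at h4
          constructor <;> linarith
        · rw [e3 hj hk, e6 hj, e6 hk]
          exact hf2 j k
    · intro j
      rw [one_mul, e1, e5]
      by_cases hj : j = i
      · subst hj
        rw [e1, e5]
        have h1 := (hf1 j).1
        rw [abs_of_nonneg (by linarith)]
      · rw [e2 hj, e6 hj]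
        have h3 := hf2 i j
        have h4 := hf2 j i
        rw [dd_comm] at h4
        rw [abs_le]
        constructor <;> linarith

theorem measurableSet_Q : MeasurableSet (Q B) := by
  unfold Q
  apply measurableSet_setOfPred.2
  refine Measurable.and ?_ (measurable_FF (measurable_fst.comp measurable_fst) measurable_snd)
  exact (measurableSet_setOfPred.1 (measurableSet_M1 (B := B))).comp measurable_fst

theorem measurable_x (i : B) : Measurable (fun q : P B => q.2 i) :=
  (measurable_pi_apply i).comp measurable_snd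

theorem measurable_y (i : B) : Measurable (fun q : P B => q.1.2 i) :=
  (measurable_pi_apply i).comp (measurable_snd.comp measurable_fst)

theorem measurableSet_U (i : B) : MeasurableSet (U i) := by
  unfold U
  apply measurableSet_setOfPred.2
  refine Measurable.and (measurableSet_setOfPred.1 measurableSet_Q) (Measurable.and
    (Measurable.forall fun j => mle ((measurable_x i).add (measurable_y i))
      ((measurable_x j).add (measurable_y j)))
    (mle ((measurable_x i).add (measurable_y i)) measurable_const))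

theorem measurableSet_L (ε : ℝ) (i : B) : MeasurableSet (L ε i) := by
  unfold L
  apply measurableSet_setOfPred.2
  refine Measurable.and (measurableSet_setOfPred.1 measurableSet_Q)
    (Measurable.forall fun j => mle ((measurable_x j).sub (measurable_y j)).abs
      (((measurable_x i).sub (measurable_y i)).const_mul ε))

/-- Exchange of `x` and `y`. -/
def T (q : P B) : P B := ((q.1.1, q.2), q.1.2)

theorem mp_T : MeasurePreserving (T (B := B)) volume volume := by
  have h1 := MeasureTheory.measurePreserving_prodAssoc (volume : Measure (E B → ℝ))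
    (volume : Measure (B → ℝ)) (volume : Measure (B → ℝ))
  have h2 := (MeasurePreserving.id (volume : Measure (E B → ℝ))).prod
    (Measure.measurePreserving_swap (μ := (volume : Measure (B → ℝ)))
      (ν := (volume : Measure (B → ℝ))))
  exact h1.symm.comp (h2.comp h1)

theorem T_mem_Q (q : P B) : T q ∈ Q B ↔ q ∈ Q B := by
  constructor
  · rintro ⟨⟨h1, h2⟩, h3⟩
    exact ⟨⟨h1, h3⟩, h2⟩
  · rintro ⟨⟨h1, h2⟩, h3⟩
    exact ⟨⟨h1, h3⟩, h2⟩

theorem T_mem_U (i : B) (q : P B) : T q ∈ U i ↔ q ∈ U i := by
  unfold U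
  simp only [Set.mem_ofPred_eq, T_mem_Q]
  simp only [T]
  constructor
  · rintro ⟨h1, h2, h3⟩
    refine ⟨h1, fun j => ?_, ?_⟩
    · have := h2 j
      linarith
    · linarith
  · rintro ⟨h1, h2, h3⟩
    refine ⟨h1, fun j => ?_, ?_⟩
    · have := h2 j
      linarith
    · linarith

theorem T_mem_L (i : B) (q : P B) : T q ∈ L 1 i ↔ q ∈ L (-1) i := by
  unfold L
  simp only [Set.mem_ofPred_eq, T_mem_Q]
  simp only [T]
  constructor
  · rintro ⟨h1, h2⟩
    refine ⟨h1, fun j => ?_⟩
    have := h2 j
    rw [abs_sub_comm] at this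
    linarith
  · rintro ⟨h1, h2⟩
    refine ⟨h1, fun j => ?_⟩
    have := h2 j
    rw [abs_sub_comm] at this
    linarith

theorem vol_U (i : B) : volume (U i) = volume (L 1 i) := by
  rw [← (mp_G i).measure_preimage (measurableSet_L 1 i).nullMeasurableSet]
  congr 1
  ext q
  exact (mem_U_iff i q).symm

theorem vol_L (i : B) : volume (L (-1) i) = volume (L 1 i) := by
  rw [← (mp_T (B := B)).measure_preimage (measurableSet_L 1 i).nullMeasurableSet]
  congr 1
  ext q
  exact (T_mem_L i q).symm

theorem int_L (i : B) : ∫⁻ q in L 1 i, ENNReal.ofReal (q.2 i - q.1.2 i) =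
    ∫⁻ q in U i, ENNReal.ofReal (q.2 i) := by
  have h := (mp_G i).setLIntegral_comp_preimage (measurableSet_L 1 i)
    (f := fun q => ENNReal.ofReal (q.2 i - q.1.2 i))
    ((measurable_x i).sub (measurable_y i)).ennreal_ofReal
  have h1 : G i ⁻¹' L 1 i = U i := by
    ext q
    exact mem_U_iff i q
  rw [h1] at h
  rw [← h]
  refine lintegral_congr fun q => ?_
  have e1 : (G i q).1.2 i = q.1.2 i := R_snd_self i q.1
  rw [e1, G_snd_self]
  congr 1
  ring

theorem int_L' (i : B) : ∫⁻ q in L (-1) i, ENNReal.ofReal (q.1.2 i - q.2 i) =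
    ∫⁻ q in U i, ENNReal.ofReal (q.1.2 i) := by
  have h := (mp_T (B := B)).setLIntegral_comp_preimage (measurableSet_L 1 i)
    (f := fun q => ENNReal.ofReal (q.2 i - q.1.2 i))
    ((measurable_x i).sub (measurable_y i)).ennreal_ofReal
  have h1 : T ⁻¹' L 1 i = L (-1) i := by
    ext q
    exact T_mem_L i q
  rw [h1, int_L] at h
  have h' := (mp_T (B := B)).setLIntegral_comp_preimage (measurableSet_U i)
    (f := fun q => ENNReal.ofReal (q.2 i)) (measurable_x i).ennreal_ofReal
  have h2 : T ⁻¹' U i = U i := by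
    ext q
    exact T_mem_U i q
  rw [h2, ← h] at h'
  exact h'.symm

/-- Coordinates as linear forms. -/
def lx (i : B) : P B →ₗ[ℝ] ℝ := (LinearMap.proj i).comp (LinearMap.snd ℝ _ _)

/-- Coordinates as linear forms. -/
def ly (i : B) : P B →ₗ[ℝ] ℝ :=
  (LinearMap.proj i).comp ((LinearMap.snd ℝ _ _).comp (LinearMap.fst ℝ _ _))

theorem null_of (φ : P B →ₗ[ℝ] ℝ) (v : P B) (hv : φ v ≠ 0) : volume {q | φ q = 0} = 0 := by
  have h1 : (volume : Measure (E B → ℝ)).IsAddHaarMeasure := inferInstance
  have h2 : (volume : Measure (B → ℝ)).IsAddHaarMeasure := inferInstance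
  have h3 : (volume : Measure ((E B → ℝ) × (B → ℝ))).IsAddHaarMeasure :=
    Measure.prod.instIsAddHaarMeasure _ _
  have h4 : (volume : Measure (P B)).IsAddHaarMeasure :=
    Measure.prod.instIsAddHaarMeasure _ _
  have h := Measure.addHaar_submodule (volume : Measure (P B)) (LinearMap.ker φ) (by
    intro h
    apply hv
    have : v ∈ (⊤ : Submodule ℝ (P B)) := trivial
    rw [← h] at this
    exact this)
  exact h

theorem aedisj_U : Pairwise (Function.onFun (AEDisjoint volume) (U (B := B))) := by
  intro i j hij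
  refine measure_mono_null ?_ (null_of (lx i + ly i - lx j - ly j) (0, Pi.single i 1) ?_)
  · rintro q ⟨h1, h2⟩
    have h3 := h1.2.1 j
    have h4 := h2.2.1 i
    show q.2 i + q.1.2 i - q.2 j - q.1.2 j = 0
    linarith
  · show (Pi.single i 1 : B → ℝ) i + 0 - (Pi.single i 1 : B → ℝ) j - 0 ≠ 0
    rw [Pi.single_eq_same, Pi.single_eq_of_ne hij.symm]
    norm_num

theorem aedisj_L : Pairwise (Function.onFun (AEDisjoint volume)
    (fun p : B × Bool => L (if p.2 then 1 else -1) p.1)) := by
  rintro ⟨i, b⟩ ⟨j, c⟩ hij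
  refine measure_mono_null (t := {q | ((if b then (1 : ℝ) else -1) • (lx i - ly i) -
    (if c then (1 : ℝ) else -1) • (lx j - ly j)) q = 0}) ?_ (null_of _ (0, Pi.single i 1) ?_)
  · rintro q ⟨h1, h2⟩
    have h3 := h1.2 j
    have h4 := h2.2 i
    show (if b then (1 : ℝ) else -1) * (q.2 i - q.1.2 i) -
      (if c then (1 : ℝ) else -1) * (q.2 j - q.1.2 j) = 0
    have h5 := abs_le.1 h3
    have h6 := abs_le.1 h4
    cases b <;> cases c <;> simp only [if_true, if_false, Bool.false_eq_true] at h3 h4 h5 h6 ⊢ <;>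
      linarith [h5.1, h5.2, h6.1, h6.2]
  · show (if b then (1 : ℝ) else -1) * ((Pi.single i 1 : B → ℝ) i - 0) -
      (if c then (1 : ℝ) else -1) * ((Pi.single i 1 : B → ℝ) j - 0) ≠ 0
    by_cases h : i = j
    · subst h
      cases b <;> cases c <;> simp at hij ⊢ <;> norm_num
    · rw [Pi.single_eq_same, Pi.single_eq_of_ne (fun h' => h h'.symm)]
      cases b <;> norm_num

end Pool.Agent.R249.MPoly
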